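import Mathlib

set_option autoImplicit false

/-!
# A closed group with fixed-point proportion zero all of whose finitely generated subgroups have
positive fixed-point proportion

The group is `∏ C₂` acting on the binary tree by coordinatewise addition of 0-1 sequences.
-/

open Filter

namespace Pool.Agent.Results.MP_12ef09_al.AllTuplesPositive

/-- The vertices of level `k` of the spherically homogeneous rooted tree in which every vertex of
level `i` has `m i` children. -/
abbrev Lev (m : ℕ → ℕ) (k : ℕ) : Type := (i : Fin k) → Fin (m i)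

/-- The parent of a vertex of level `k + 1`. -/
def parent {m : ℕ → ℕ} {k : ℕ} (v : Lev m (k + 1)) : Lev m k := fun i => v i.castSucc

/-- The automorphism group of the tree, as the group of the compatible families of permutations of
the levels. -/
def AutT (m : ℕ → ℕ) : Subgroup (∀ k, Equiv.Perm (Lev m k)) where
  carrier := {g | ∀ (k : ℕ) (v : Lev m (k + 1)), parent (g (k + 1) v) = g k (parent v)}
  one_mem' := fun _ _ => rfl
  mul_mem' := by
    intro g h hg hh k v
    show parent (g (k + 1) (h (k + 1) v)) = g k (h k (parent v))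
    rw [hg, hh]
  inv_mem' := by
    intro g hg k v
    show parent ((g (k + 1))⁻¹ v) = (g k)⁻¹ (parent v)
    rw [Equiv.Perm.eq_inv_iff_eq, ← hg]
    simp

/-- The profinite topology: the product of the discrete topologies on the groups of permutations
of the levels. -/
@[instance_reducible] def profTop (m : ℕ → ℕ) : TopologicalSpace (∀ k, Equiv.Perm (Lev m k)) :=
  @Pi.topologicalSpace ℕ (fun k => Equiv.Perm (Lev m k)) (fun _ => ⊥)

/-- The group `π_k(H)` of permutations of level `k` induced by `H`. -/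
def levelGroup {m : ℕ → ℕ} (H : Subgroup (∀ k, Equiv.Perm (Lev m k))) (k : ℕ) :
    Subgroup (Equiv.Perm (Lev m k)) :=
  H.map (Pi.evalMonoidHom (fun k => Equiv.Perm (Lev m k)) k)

/-- The proportion `p_k(H)` of the elements of `π_k(H)` that fix at least one vertex of
level `k`. -/
noncomputable def prop {m : ℕ → ℕ} (H : Subgroup (∀ k, Equiv.Perm (Lev m k))) (k : ℕ) : ℝ :=
  (Nat.card {x : levelGroup H k // ∃ v : Lev m k, (x : Equiv.Perm (Lev m k)) v = v} : ℝ) /
    (Nat.card (levelGroup H k) : ℝ)

/-- The fixed-point proportion of `H` is `c`. -/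
def HasFPP {m : ℕ → ℕ} (H : Subgroup (∀ k, Equiv.Perm (Lev m k))) (c : ℝ) : Prop :=
  Tendsto (prop H) atTop (nhds c)

/-- the binary tree -/
abbrev two : ℕ → ℕ := fun _ => 2

/-- addition of the sequence `c` -/
def tr (c : ℕ → Fin 2) (k : ℕ) : Equiv.Perm (Lev two k) :=
  Equiv.addRight (fun i : Fin k => c i)

lemma tr_apply (c : ℕ → Fin 2) (k : ℕ) (v : Lev two k) (i : Fin k) :
    tr c k v i = (v i : Fin 2) + (c i : Fin 2) := rfl

/-- the homomorphism -/
def trHom : Multiplicative (ℕ → Fin 2) →* (∀ k, Equiv.Perm (Lev two k)) where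
  toFun c := tr c.toAdd
  map_one' := by
    funext k
    apply Equiv.ext
    intro v
    funext i
    show (v i : Fin 2) + (0 : Fin 2) = v i
    rw [add_zero]
  map_mul' := by
    intro c d
    funext k
    apply Equiv.ext
    intro v
    funext i
    show (v i : Fin 2) + ((c.toAdd i : Fin 2) + (d.toAdd i : Fin 2)) =
      (v i : Fin 2) + (d.toAdd i : Fin 2) + (c.toAdd i : Fin 2)
    abel

/-- the group -/
def G : Subgroup (∀ k, Equiv.Perm (Lev two k)) := trHom.range

lemma mem_G (g : ∀ k, Equiv.Perm (Lev two k)) : g ∈ G ↔ ∃ c : ℕ → Fin 2, g = tr c := by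
  constructor
  · rintro ⟨c, rfl⟩
    exact ⟨c.toAdd, rfl⟩
  · rintro ⟨c, rfl⟩
    exact ⟨Multiplicative.ofAdd c, rfl⟩

lemma G_le : G ≤ AutT two := by
  rintro g ⟨c, rfl⟩ k v
  rfl

lemma mem_G' (g : ∀ k, Equiv.Perm (Lev two k)) :
    g ∈ G ↔ (∀ (k : ℕ) (v : Lev two (k + 1)), parent (g (k + 1) v) = g k (parent v)) ∧
      ∀ (k : ℕ) (v : Lev two k), g k v = (v + g k 0 : Fin k → Fin 2) := by
  constructor
  · intro h
    refine ⟨G_le h, ?_⟩
    obtain ⟨c, rfl⟩ := (mem_G _).1 h
    intro k v
    funext i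
    show (v i : Fin 2) + (c i : Fin 2) = (v i : Fin 2) + ((0 : Fin 2) + (c i : Fin 2))
    rw [zero_add]
  · rintro ⟨h1, h2⟩
    rw [mem_G]
    have h3 : ∀ (j k : ℕ) (hjk : j < k),
        (g k 0 : Fin k → Fin 2) ⟨j, hjk⟩ = (g (j + 1) 0 : Fin (j + 1) → Fin 2) (Fin.last j) := by
      intro j k hjk
      induction k with
      | zero => omega
      | succ k ih =>
        by_cases h : j = k
        · subst h
          rfl
        · have h4 : j < k := by omega
          rw [← ih h4]
          have h5 := congrFun (h1 k 0) ⟨j, h4⟩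
          exact h5
    refine ⟨fun j => (g (j + 1) 0 : Fin (j + 1) → Fin 2) (Fin.last j), ?_⟩
    funext k
    apply Equiv.ext
    intro v
    rw [h2]
    funext i
    show (v i : Fin 2) + (g k 0 : Fin k → Fin 2) i = _
    rw [tr_apply]
    congr 1
    exact h3 i k i.2

lemma G_closed : @IsClosed _ (profTop two) (G : Set (∀ k, Equiv.Perm (Lev two k))) := by
  letI : ∀ k, TopologicalSpace (Equiv.Perm (Lev two k)) := fun _ => ⊥
  haveI : ∀ k, DiscreteTopology (Equiv.Perm (Lev two k)) := fun _ => ⟨rfl⟩
  show IsClosed (G : Set (∀ k, Equiv.Perm (Lev two k)))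
  have h : (G : Set (∀ k, Equiv.Perm (Lev two k))) =
      (⋂ (k : ℕ), ⋂ (v : Lev two (k + 1)),
        {g | parent (g (k + 1) v) = g k (parent v)}) ∩
      (⋂ (k : ℕ), ⋂ (v : Lev two k), {g | g k v = (v + g k 0 : Fin k → Fin 2)}) := by
    ext g
    rw [SetLike.mem_coe, mem_G']
    simp only [Set.mem_inter_iff, Set.mem_iInter, Set.mem_ofPred_eq]
  rw [h]
  apply IsClosed.inter
  · apply isClosed_iInter; intro k
    apply isClosed_iInter; intro v
    apply isClosed_eq
    · exact (continuous_of_discreteTopology (f := fun x : Equiv.Perm (Lev two (k + 1)) =>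
        parent (x v))).comp (continuous_apply (k + 1))
    · exact (continuous_of_discreteTopology (f := fun x : Equiv.Perm (Lev two k) =>
        x (parent v))).comp (continuous_apply k)
  · apply isClosed_iInter; intro k
    apply isClosed_iInter; intro v
    apply isClosed_eq
    · exact (continuous_of_discreteTopology (f := fun x : Equiv.Perm (Lev two k) =>
        x v)).comp (continuous_apply k)
    · exact (continuous_of_discreteTopology (f := fun x : Equiv.Perm (Lev two k) =>
        (v + x 0 : Fin k → Fin 2))).comp (continuous_apply k)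

/-- only the identity has fixed points -/
lemma fix_card {H : Subgroup (∀ k, Equiv.Perm (Lev two k))} (hH : H ≤ G) (k : ℕ) :
    Nat.card {x : levelGroup H k // ∃ v : Lev two k, (x : Equiv.Perm (Lev two k)) v = v} = 1 := by
  rw [Nat.card_eq_one_iff_unique]
  refine ⟨⟨?_⟩, ⟨⟨1, 0, rfl⟩⟩⟩
  have key : ∀ x : {x : levelGroup H k // ∃ v : Lev two k, (x : Equiv.Perm (Lev two k)) v = v},
      x.1.1 = 1 := by
    rintro ⟨⟨x, hx⟩, v, hv⟩
    obtain ⟨g, hg, rfl⟩ := hx
    obtain ⟨c, rfl⟩ := (mem_G _).1 (hH hg)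
    apply Equiv.ext
    intro w
    have h1 : ∀ i : Fin k, (c i : Fin 2) = 0 := by
      intro i
      have h2 : (v i : Fin 2) + (c i : Fin 2) = v i := congrFun hv i
      exact add_eq_left.1 h2
    funext i
    show (w i : Fin 2) + (c i : Fin 2) = w i
    rw [h1, add_zero]
  intro x y
  apply Subtype.ext
  apply Subtype.ext
  rw [key x, key y]

lemma prop_eq {H : Subgroup (∀ k, Equiv.Perm (Lev two k))} (hH : H ≤ G) (k : ℕ) :
    prop H k = 1 / (Nat.card (levelGroup H k) : ℝ) := by
  rw [prop, fix_card hH, Nat.cast_one]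

lemma card_G (k : ℕ) : Nat.card (levelGroup G k) = 2 ^ k := by
  have h1 : Function.Bijective (fun x : levelGroup G k => ((x : Equiv.Perm (Lev two k)) 0)) := by
    constructor
    · rintro ⟨x, hx⟩ ⟨y, hy⟩ h
      obtain ⟨g, hg, rfl⟩ := hx
      obtain ⟨g', hg', rfl⟩ := hy
      apply Subtype.ext
      apply Equiv.ext
      intro v
      show g k v = g' k v
      rw [((mem_G' g).1 hg).2 k v, ((mem_G' g').1 hg').2 k v]
      have h' : g k 0 = g' k 0 := h
      rw [h']
    · intro w
      let c : ℕ → Fin 2 := fun j => if h : j < k then (w ⟨j, h⟩ : Fin 2) else 0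
      refine ⟨⟨tr c k, ⟨tr c, (mem_G _).2 ⟨c, rfl⟩, rfl⟩⟩, ?_⟩
      funext i
      show (0 : Fin 2) + (c i : Fin 2) = w i
      rw [zero_add]
      simp [c]
  rw [Nat.card_congr (Equiv.ofBijective _ h1), Nat.card_eq_fintype_card]
  simp

instance (k : ℕ) : Finite (Equiv.Perm (Lev two k)) := inferInstance

lemma card_mono {H : Subgroup (∀ k, Equiv.Perm (Lev two k))} (hH : H ≤ AutT two) (k : ℕ) :
    Nat.card (levelGroup H k) ≤ Nat.card (levelGroup H (k + 1)) := by
  have h : ∀ x : levelGroup H (k + 1), ∃ g ∈ H, g (k + 1) = x.1 := by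
    rintro ⟨x, g, hg, rfl⟩
    exact ⟨g, hg, rfl⟩
  choose f hf1 hf2 using h
  apply Nat.card_le_card_of_surjective
    (fun x : levelGroup H (k + 1) => (⟨f x k, ⟨f x, hf1 x, rfl⟩⟩ : levelGroup H k))
  rintro ⟨y, g, hg, rfl⟩
  refine ⟨⟨g (k + 1), ⟨g, hg, rfl⟩⟩, ?_⟩
  apply Subtype.ext
  apply Equiv.ext
  intro v
  set x : levelGroup H (k + 1) := ⟨g (k + 1), ⟨g, hg, rfl⟩⟩ with hx
  show f x k v = g k v
  let w : Lev two (k + 1) := Fin.snoc (α := fun _ => Fin 2) v 0
  have hw : parent w = v := by
    funext i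
    show Fin.snoc (α := fun _ => Fin 2) v 0 i.castSucc = v i
    rw [Fin.snoc_castSucc]
  rw [← hw, ← hH (hf1 x), ← hH hg, hf2 x]

/-- identification of the two models of the integers modulo two -/
def toF : (ℕ → ZMod 2) →+ (ℕ → Fin 2) := AddMonoidHom.id (ℕ → Fin 2)

lemma card_le {n : ℕ} (g : Fin n → G) (k : ℕ) :
    Nat.card (levelGroup (Subgroup.closure (Set.range fun i => (g i : ∀ k, Equiv.Perm (Lev two k))))
      k) ≤ 2 ^ n := by
  have h := fun i => (mem_G _).1 (g i).2
  choose c hc using h
  let c' : Fin n → ℕ → ZMod 2 := c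
  let ψ : Multiplicative (Fin n → ZMod 2) →* (∀ k, Equiv.Perm (Lev two k)) :=
    trHom.comp (AddMonoidHom.toMultiplicative
      (toF.comp (Fintype.linearCombination (ZMod 2) c').toAddMonoidHom))
  have h1 : Subgroup.closure (Set.range fun i => (g i : ∀ k, Equiv.Perm (Lev two k))) ≤
      ψ.range := by
    rw [Subgroup.closure_le]
    rintro x ⟨i, rfl⟩
    refine ⟨Multiplicative.ofAdd (Pi.single i 1), ?_⟩
    show tr (toF (Fintype.linearCombination (ZMod 2) c' (Pi.single i 1))) = (g i).1
    rw [Fintype.linearCombination_apply_single, one_smul, hc]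
    rfl
  have h2 : levelGroup (Subgroup.closure
      (Set.range fun i => (g i : ∀ k, Equiv.Perm (Lev two k)))) k ≤ levelGroup ψ.range k :=
    Subgroup.map_mono h1
  refine (Subgroup.card_le_of_le h2).trans ?_
  have h3 : levelGroup ψ.range k = ((Pi.evalMonoidHom _ k).comp ψ).range := by
    rw [levelGroup, MonoidHom.map_range]
  rw [h3]
  refine (Nat.card_le_card_of_surjective ((Pi.evalMonoidHom _ k).comp ψ).rangeRestrict
    (MonoidHom.rangeRestrict_surjective _)).trans ?_
  rw [Nat.card_eq_fintype_card]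
  simp

/-- There are a spherically homogeneous rooted tree and a closed group `G` of automorphisms of it
with fixed-point proportion `0` such that for every `n` every `n`-tuple of elements of `G`
generates a subgroup with fixed-point proportion at least `2⁻ⁿ`; in particular, for every
probability measure on `Gⁿ` (such as the Haar measure), almost all tuples generate a subgroup with
positive fixed-point proportion. -/
theorem result :
    ∃ (m : ℕ → ℕ) (_ : ∀ k, 2 ≤ m k) (G : Subgroup (∀ k, Equiv.Perm (Lev m k))),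
      G ≤ AutT m ∧ @IsClosed _ (profTop m) (G : Set (∀ k, Equiv.Perm (Lev m k))) ∧
      HasFPP G 0 ∧
      (∀ (n : ℕ) (g : Fin n → G), ∃ c : ℝ, 1 / 2 ^ n ≤ c ∧
        HasFPP (Subgroup.closure (Set.range fun i => (g i : ∀ k, Equiv.Perm (Lev m k)))) c) ∧
      (∀ (n : ℕ) (_ : MeasurableSpace (Fin n → G)) (μ : MeasureTheory.Measure (Fin n → G)),
        MeasureTheory.IsProbabilityMeasure μ →
        ∀ᵐ g ∂μ, ∃ c : ℝ, 0 < c ∧
          HasFPP (Subgroup.closure (Set.range fun i => (g i : ∀ k, Equiv.Perm (Lev m k)))) c) := by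
  have main : ∀ (n : ℕ) (g : Fin n → G), ∃ c : ℝ, 1 / 2 ^ n ≤ c ∧
      HasFPP (Subgroup.closure (Set.range fun i => (g i : ∀ k, Equiv.Perm (Lev two k)))) c := by
    intro n g
    set H := Subgroup.closure (Set.range fun i => (g i : ∀ k, Equiv.Perm (Lev two k))) with hHdef
    have hH : H ≤ G := by
      rw [hHdef, Subgroup.closure_le]
      rintro x ⟨i, rfl⟩
      exact (g i).2
    have hpos : ∀ k, 0 < Nat.card (levelGroup H k) := fun k => Nat.card_pos
    have hanti : Antitone (prop H) := by
      apply antitone_nat_of_succ_le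
      intro k
      rw [prop_eq hH, prop_eq hH]
      apply one_div_le_one_div_of_le
      · exact_mod_cast hpos k
      · exact_mod_cast card_mono (hH.trans G_le) k
    have hlow : ∀ k, (1 : ℝ) / 2 ^ n ≤ prop H k := by
      intro k
      rw [prop_eq hH]
      apply one_div_le_one_div_of_le
      · exact_mod_cast hpos k
      · exact_mod_cast card_le g k
    refine ⟨⨅ k, prop H k, le_ciInf hlow, ?_⟩
    exact tendsto_atTop_ciInf hanti ⟨1 / 2 ^ n, by rintro _ ⟨k, rfl⟩; exact hlow k⟩
  refine ⟨two, fun _ => le_rfl, G, G_le, G_closed, ?_, main, ?_⟩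
  · have h : prop G = fun k => (1 / 2 : ℝ) ^ k := by
      funext k
      rw [prop_eq le_rfl, card_G]
      push_cast
      rw [one_div_pow]
    rw [HasFPP, h]
    exact tendsto_pow_atTop_nhds_zero_of_lt_one (by norm_num) (by norm_num)
  · intro n _ μ _
    apply Filter.Eventually.of_forall
    intro g
    obtain ⟨c, hc, h⟩ := main n g
    exact ⟨c, lt_of_lt_of_le (by positivity) hc, h⟩

end Pool.Agent.Results.MP_12ef09_al.AllTuplesPositive
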